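import Pool.Agent.Helper73.RS.St

/-! Project RS (MP_ecaebc_co), module GMU: products of good means are good. -/

set_option autoImplicit false

namespace Pool.Agent.Helper64.RS

open Pool.Agent.Helper73.RS
open Filter Topology

theorem holds_GMU : StGMU := by
  intro m n hm hn
  have key : ∀ U : Set ℕ, (m * n) (ind U) = m (fun a => n (ind {b | a + b ∈ U})) := by
    intro U
    have h : ∀ a : ℕ, (fun b => ind U (a + b)) = ind {b | a + b ∈ U} := fun a =>
      ind_comp U (fun b => a + b)
    rw [mul_def]
    simp only [h]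
  refine ⟨hm.mean.mul hn.mean, ?_, ?_⟩
  · intro U hU
    rw [key]
    have h0 : ∀ a, n (ind {b | a + b ∈ U}) = 0 := by
      intro a
      refine hn.large _ fun h => hU ?_
      have e : {b : ℕ | a + b ∈ U} = {x | x + a ∈ U} := by
        ext b
        show a + b ∈ U ↔ b + a ∈ U
        rw [add_comm]
      rw [e] at h
      exact (large_shift U a).1 h
    simp only [h0]
    exact hm.mean.const 0
  · intro U hU
    by_contra hne
    rw [key] at hne
    have hbd : Bd (fun a => n (ind {b | a + b ∈ U})) := by
      have : Bd (fun q : ℕ × ℕ => ind {b | q.1 + b ∈ U} q.2) :=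
        Bd.of_nonneg_le (fun q => ind_nonneg _ _) (fun q => ind_le_one _ _)
      exact hn.mean.bd_int this
    have hpos : 0 < m (fun a => n (ind {b | a + b ∈ U})) :=
      lt_of_le_of_ne (hm.mean.nonneg _ hbd fun a => hn.mean.ind_nonneg _) (Ne.symm hne)
    have h1 := hm.mean.pos_of_pos hbd hpos
    have hR : Rec {a | 0 < n (ind {b | a + b ∈ U})} := by
      by_contra hcon
      rw [hm.recur _ hcon] at h1
      exact lt_irrefl _ h1
    apply hU
    intro B hB
    obtain ⟨a, ha, hB'⟩ := hR B hB
    have hRa : Rec {b | a + b ∈ U} := by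
      by_contra hcon
      have ha' : 0 < n (ind {b | a + b ∈ U}) := ha
      rw [hn.recur _ hcon] at ha'
      exact lt_irrefl _ ha'
    obtain ⟨v, hv, hB''⟩ := hRa _ hB'
    refine ⟨a + v, hv, hB''.mono ?_⟩
    rintro b ⟨⟨h2, -⟩, -, h3⟩
    refine ⟨h2, ?_⟩
    have e : b + (a + v) = b + v + a := by ring
    rw [e]
    exact h3

end Pool.Agent.Helper64.RS
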